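import Pool.Agent.TH399.RM.Main

/-!
# Matrices of iterated cube roots of distinct primes are rigid
-/

set_option autoImplicit false

namespace Pool.Agent.Results.MP_0775d3_lc.IteratedCubeRoots

open Polynomial

/-- the number of nonzero entries -/
noncomputable def sp {X Y F : Type} [Field F] (S : Matrix X Y F) : ℕ :=
  Nat.card {p : X × Y // S p.1 p.2 ≠ 0}

/-- `A` is `(r, s)`-rigid: it is not the sum of a matrix of rank at most `r` and a matrix with at
most `s` nonzero entries -/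
def Rigid {X Y F : Type} [Fintype X] [Fintype Y] [Field F] (r s : ℝ) (A : Matrix X Y F) : Prop :=
  ¬ ∃ R S : Matrix X Y F, A = R + S ∧ (R.rank : ℝ) ≤ r ∧ (sp S : ℝ) ≤ s

/-- the numbers `P i j` are distinct primes -/
def DistinctPrimes {n : ℕ} (P : Fin n → Fin n → ℕ) : Prop :=
  (∀ i j, (P i j).Prime) ∧ ∀ i j i' j', P i j = P i' j' → i = i' ∧ j = j'

/-- the positive real number `P i j ^ (1 / 3 ^ k)`, the `k`-fold iterated cube root of `P i j` -/
noncomputable def root (k : ℕ) {n : ℕ} (P : Fin n → Fin n → ℕ) (i j : Fin n) : ℝ :=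
  (P i j : ℝ) ^ ((1 : ℝ) / 3 ^ k)

/-- the matrix of the `k`-fold iterated cube roots of the numbers `P i j`, over an extension field
`F` of the real numbers -/
noncomputable def rootMatrix (k : ℕ) {n : ℕ} (P : Fin n → Fin n → ℕ) (F : Type) [Field F]
    [Algebra ℝ F] : Matrix (Fin n) (Fin n) F :=
  fun i j => algebraMap ℝ F (root k P i j)

/-- the first `n ^ 2` primes, row by row -/
noncomputable def firstPrimes (n : ℕ) : Fin n → Fin n → ℕ :=
  fun i j => Nat.nth Nat.Prime (n * i + j)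

lemma general (F : Type) [Field F] [Algebra ℝ F] (n k : ℕ) (P : Fin n → Fin n → ℕ)
    (hP : DistinctPrimes P) (R S : Matrix (Fin n) (Fin n) F) (hA : rootMatrix k P F = R + S) :
    k * (n - R.rank) ^ 2 ≤ k * sp S + 3 * n ^ 2 := by
  by_contra hcon
  push Not at hcon
  have hr : R.rank ≤ n := by
    have := R.rank_le_width
    exact this
  have := TH399.RM.rigid_general F n k R.rank (sp S) P hP hr (by omega) R S hA le_rfl
  exact absurd this (lt_irrefl _)

lemma minpoly_root (k n : ℕ) (P : Fin n → Fin n → ℕ) (hP : DistinctPrimes P) (i j : Fin n) :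
    0 < root k P i j ∧ minpoly ℚ (root k P i j) = X ^ 3 ^ k - C (P i j : ℚ) ∧
      ∀ y : ℝ, y ^ 3 ^ k = P i j → y = root k P i j := by
  have hp := hP.1 i j
  have hpos : (0 : ℝ) < P i j := by exact_mod_cast hp.pos
  have hpow : root k P i j ^ 3 ^ k = P i j := by
    unfold root
    rw [← Real.rpow_natCast, ← Real.rpow_mul hpos.le]
    have h1 : (1 : ℝ) / 3 ^ k * ((3 ^ k : ℕ) : ℝ) = 1 := by
      push_cast
      field_simp
    rw [h1, Real.rpow_one]
  have hirr : Irreducible (X ^ 3 ^ k - C (P i j : ℚ) : ℚ[X]) := by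
    rcases Nat.eq_zero_or_pos k with hk | hk
    · subst hk
      rw [pow_zero, pow_one]
      exact irreducible_X_sub_C _
    · rw [X_pow_sub_C_irreducible_iff_of_prime_pow Nat.prime_three (by norm_num) hk.ne']
      intro b hb
      have : Fact (P i j).Prime := ⟨hp⟩
      have h1 := congrArg (padicValRat (P i j)) hb
      rw [padicValRat.pow, padicValRat.self hp.one_lt] at h1
      push_cast at h1
      omega
  refine ⟨Real.rpow_pos_of_pos hpos _, ?_, ?_⟩
  · symm
    apply minpoly.eq_of_irreducible_of_monic hirr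
    · simp [hpow]
    · exact monic_X_pow_sub_C _ (by positivity)
  · intro y hy
    have hodd : Odd (3 ^ k) := Odd.pow (by decide)
    apply hodd.strictMono_pow.injective
    show y ^ 3 ^ k = root k P i j ^ 3 ^ k
    rw [hy, hpow]

/-- **Matrices of iterated cube roots of distinct primes are rigid.**  Let `F` be an extension field
of the real numbers (for instance `ℝ` or `ℂ`), let `P i j` (`i, j < n`) be distinct primes and let
`A` be the `n × n` matrix with entries `P i j ^ (1 / 3 ^ k)`.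
(1) If `A = R + S` over `F`, then `sp S ≥ (n - rank R) ^ 2 - 3 n ^ 2 / k`.
(2) For all `0 ≤ ε ≤ 1` and `κ < (1 - ε) ^ 2` there is a `k` such that, for all `n ≥ 1`, the matrix of
the `3 ^ k`-th roots of the first `n ^ 2` primes is `(ε n, κ n ^ 2)`-rigid.
(3) Hence for all `ε, δ < 1` there is a `k` such that this matrix is `(ε n, n ^ (1 + δ))`-rigid for
all sufficiently large `n`.
(4) The first `n ^ 2` primes are at most `2 n ^ 4`; the `3 ^ k`-th root of the prime `p` is positive,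
its minimal polynomial over `ℚ` is `X ^ (3 ^ k) - p`, and it is the only real root of this
polynomial. -/
theorem result :
    (∀ (F : Type) [Field F] [Algebra ℝ F] (n k : ℕ) (P : Fin n → Fin n → ℕ),
      DistinctPrimes P → 0 < k → ∀ R S : Matrix (Fin n) (Fin n) F, rootMatrix k P F = R + S →
      ((n : ℝ) - R.rank) ^ 2 - 3 * (n : ℝ) ^ 2 / k ≤ sp S) ∧
    (∀ ε κ : ℝ, 0 ≤ ε → ε ≤ 1 → κ < (1 - ε) ^ 2 → ∃ k : ℕ, ∀ (F : Type) [Field F] [Algebra ℝ F]
      (n : ℕ), 0 < n → Rigid (ε * n) (κ * (n : ℝ) ^ 2) (rootMatrix k (firstPrimes n) F)) ∧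
    (∀ ε δ : ℝ, ε < 1 → δ < 1 → ∃ k n₀ : ℕ, ∀ (F : Type) [Field F] [Algebra ℝ F] (n : ℕ),
      n₀ ≤ n → Rigid (ε * n) ((n : ℝ) ^ (1 + δ)) (rootMatrix k (firstPrimes n) F)) ∧
    (∀ n k : ℕ, DistinctPrimes (firstPrimes n) ∧ ∀ i j, firstPrimes n i j ≤ 2 * n ^ 4 ∧
      0 < root k (firstPrimes n) i j ∧
      minpoly ℚ (root k (firstPrimes n) i j) = X ^ 3 ^ k - C (firstPrimes n i j : ℚ) ∧
      ∀ y : ℝ, y ^ 3 ^ k = firstPrimes n i j → y = root k (firstPrimes n) i j) := by
  have hrk : ∀ {F : Type} [Field F] {n : ℕ} (R : Matrix (Fin n) (Fin n) F), R.rank ≤ n :=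
    fun R => R.rank_le_width
  have part1 : ∀ (F : Type) [Field F] [Algebra ℝ F] (n k : ℕ) (P : Fin n → Fin n → ℕ),
      DistinctPrimes P → 0 < k → ∀ R S : Matrix (Fin n) (Fin n) F, rootMatrix k P F = R + S →
      ((n : ℝ) - R.rank) ^ 2 - 3 * (n : ℝ) ^ 2 / k ≤ sp S := by
    intro F _ _ n k P hP hk R S hA
    have h1 := general F n k P hP R S hA
    have h2 : ((k * (n - R.rank) ^ 2 : ℕ) : ℝ) ≤ ((k * sp S + 3 * n ^ 2 : ℕ) : ℝ) := by
      exact_mod_cast h1
    push_cast [Nat.cast_sub (hrk R)] at h2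
    have hk' : (0 : ℝ) < k := by exact_mod_cast hk
    rw [sub_le_iff_le_add, ← mul_le_mul_iff_right₀ hk']
    have h3 : (k : ℝ) * (sp S + 3 * (n : ℝ) ^ 2 / k) = k * sp S + 3 * n ^ 2 := by
      field_simp
    rw [h3]
    exact h2
  have part2 : ∀ ε κ : ℝ, 0 ≤ ε → ε ≤ 1 → κ < (1 - ε) ^ 2 → ∃ k : ℕ, ∀ (F : Type) [Field F]
      [Algebra ℝ F] (n : ℕ), 0 < n →
      Rigid (ε * n) (κ * (n : ℝ) ^ 2) (rootMatrix k (firstPrimes n) F) := by
    intro ε κ hε hε1 hκ
    obtain ⟨k, hk⟩ := exists_nat_gt (3 / ((1 - ε) ^ 2 - κ))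
    refine ⟨k, ?_⟩
    intro F _ _ n hn hcon
    obtain ⟨R, S, hA, hR, hS⟩ := hcon
    have hd : 0 < (1 - ε) ^ 2 - κ := by linarith
    have hk0 : (0 : ℝ) < k := lt_trans (by positivity) hk
    have h1 := part1 F n k (firstPrimes n) (TH399.RM.firstPrimes_distinct n)
      (by exact_mod_cast hk0) R S hA
    have hn' : (0 : ℝ) < n := by exact_mod_cast hn
    have h2 : ((1 - ε) * n) ^ 2 ≤ ((n : ℝ) - R.rank) ^ 2 := by
      apply pow_le_pow_left₀
      · exact mul_nonneg (by linarith) hn'.le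
      · linarith
    have h3 : 3 * (n : ℝ) ^ 2 / k < ((1 - ε) ^ 2 - κ) * n ^ 2 := by
      rw [div_lt_iff₀ hk0]
      rw [div_lt_iff₀ hd] at hk
      have : 0 < (n : ℝ) ^ 2 := by positivity
      nlinarith
    nlinarith
  refine ⟨part1, part2, ?_, ?_⟩
  · intro ε δ hε hδ
    -- reduce to `0 ≤ ε`
    set ε' := max ε 0 with hε'
    have h0 : 0 ≤ ε' := le_max_right _ _
    have h1 : ε' < 1 := max_lt hε one_pos
    obtain ⟨k, hk⟩ := part2 ε' ((1 - ε') ^ 2 / 2) h0 h1.le (by
      have : 0 < (1 - ε') ^ 2 := by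
        have : 0 < 1 - ε' := by linarith
        positivity
      linarith)
    have hpos : 0 < (1 - ε') ^ 2 / 2 := by
      have : 0 < 1 - ε' := by linarith
      positivity
    -- for large `n`, `n ^ (1 + δ) ≤ κ n ^ 2`
    have hlim : Filter.Tendsto (fun n : ℕ => ((n : ℝ)) ^ (-(1 - δ))) Filter.atTop (nhds 0) :=
      (tendsto_rpow_neg_atTop (by linarith)).comp tendsto_natCast_atTop_atTop
    obtain ⟨n₀, hn₀⟩ := Filter.eventually_atTop.1 (hlim.eventually_lt_const hpos)
    refine ⟨k, max n₀ 1, ?_⟩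
    intro F _ _ n hn hcon
    have hn1 : 1 ≤ n := le_trans (le_max_right _ _) hn
    have hn' : (0 : ℝ) < n := by exact_mod_cast hn1
    have h2 := hn₀ n (le_trans (le_max_left _ _) hn)
    have h3 : (n : ℝ) ^ (1 + δ) ≤ (1 - ε') ^ 2 / 2 * (n : ℝ) ^ 2 := by
      have h4 : (n : ℝ) ^ (1 + δ) = (n : ℝ) ^ (-(1 - δ)) * (n : ℝ) ^ 2 := by
        rw [← Real.rpow_natCast, ← Real.rpow_add hn']
        congr 1
        push_cast
        ring
      rw [h4]
      exact mul_le_mul_of_nonneg_right h2.le (by positivity)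
    apply hk F n hn1
    obtain ⟨R, S, hA, hR, hS⟩ := hcon
    refine ⟨R, S, hA, hR.trans ?_, hS.trans h3⟩
    exact mul_le_mul_of_nonneg_right (le_max_left _ _) hn'.le
  · intro n k
    exact ⟨TH399.RM.firstPrimes_distinct n, fun i j => ⟨TH399.RM.firstPrimes_le n i j,
      minpoly_root k n (firstPrimes n) (TH399.RM.firstPrimes_distinct n) i j⟩⟩

end Pool.Agent.Results.MP_0775d3_lc.IteratedCubeRoots
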