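import Pool.Agent.TH969.MT.NR

/-!
# Matrices `f (x * y)` on products of small semigroups are not rigid
-/

set_option autoImplicit false

namespace Pool.Agent.Results.MP_0775d3_lc.SemigroupTables

open Matrix Module

/-- the number of nonzero entries -/
noncomputable def sp {X F : Type} [Field F] (S : Matrix X X F) : ℕ :=
  Nat.card {p : X × X // S p.1 p.2 ≠ 0}

/-- `M` is `(r, s)`-rigid: it is not the sum of a matrix of rank at most `r` and a matrix with at
most `s` nonzero entries -/
def Rigid {X F : Type} [Fintype X] [Field F] (r s : ℝ) (M : Matrix X X F) : Prop :=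
  ¬ ∃ R S : Matrix X X F, M = R + S ∧ (R.rank : ℝ) ≤ r ∧ (sp S : ℝ) ≤ s

/-- For the `N` by `N` matrix `M` there is a matrix `B` of rank at most `N ^ (1 - γ)` which differs
from `M` in at most `N ^ ε` entries of every row. -/
def NearLowRank {X F : Type} [Fintype X] [Field F] (γ ε : ℝ) (M : Matrix X X F) : Prop :=
  ∃ B : Matrix X X F, (B.rank : ℝ) ≤ (Fintype.card X : ℝ) ^ (1 - γ) ∧
    ∀ x, (Nat.card {y // M x y ≠ B x y} : ℝ) ≤ (Fintype.card X : ℝ) ^ ε

/-- The left regular representation of the finite semigroup `S` over the field `L` is triangular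
in some basis `b` of the semigroup algebra: every element of `S` maps `b k` into the span of the
`b j` with `j ≤ k`. -/
def Triangularizable (L S : Type) [Field L] [Semigroup S] [Fintype S] : Prop :=
  ∃ b : Basis (Fin (Fintype.card S)) L (MonoidAlgebra L S),
    ∀ (x : S) k, MonoidAlgebra.single x (1 : L) * b k ∈ Submodule.span L (b '' {j | j ≤ k})

/-- the matrix `f (x * y)` with rows and columns indexed by `x, y ∈ S` -/
def table {S F : Type} [Mul S] (f : S → F) : Matrix S S F := Matrix.of fun x y => f (x * y)

/-- **Multiplication tables of products of small semigroups are not rigid.**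
For all `d` and `ε > 0` there is `γ > 0` such that for every field `F` and `η > 0` there is `N₀`
with: let `S i` be semigroups with `2 ≤ |S i| ≤ d`, each of which is commutative, or a band
(`x * x = x` for all `x`), or has a triangularizable left regular representation over an algebraic
closure of `F`, let `N ≥ N₀` be the number of elements of the direct product of the `S i`, and let
`f` be any function from this product to `F`. Then the matrix `f (x * y)` differs in at most
`N ^ ε` entries of every row from a matrix over `F` of rank at most `N ^ (1 - γ)`; and it is not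
`(η N, N ^ (1 + ε))`-rigid. -/
theorem result (d : ℕ) (ε : ℝ) (hε : 0 < ε) : ∃ γ : ℝ, 0 < γ ∧ ∀ (F : Type) [Field F] (η : ℝ),
    0 < η → ∃ N₀ : ℕ, ∀ (n : ℕ) (S : Fin n → Type) [∀ i, Semigroup (S i)] [∀ i, Fintype (S i)]
      (f : (∀ i, S i) → F),
      (∀ i, 2 ≤ Fintype.card (S i) ∧ Fintype.card (S i) ≤ d) →
      (∀ i, (∀ x y : S i, x * y = y * x) ∨ (∀ x : S i, x * x = x) ∨
        Triangularizable (AlgebraicClosure F) (S i)) →
      N₀ ≤ Fintype.card (∀ i, S i) →
      NearLowRank γ ε (table f) ∧
        ¬ Rigid (η * Fintype.card (∀ i, S i)) ((Fintype.card (∀ i, S i) : ℝ) ^ (1 + ε))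
          (table f) := by
  obtain ⟨γ, hγ, h⟩ := TH969.MT.final_semi d ε hε
  refine ⟨γ, hγ, fun F _ η hη => ?_⟩
  obtain ⟨N₀, h'⟩ := h F
  obtain ⟨N₁, h1⟩ := TH969.MT.not_rigid_core γ η hγ hη
  refine ⟨max N₀ N₁, ?_⟩
  intro n S _ _ f hs hS hN
  have hcard : Fintype.card (∀ i, S i) = ∏ i, Fintype.card (S i) := Fintype.card_pi
  obtain ⟨B, hB, hB'⟩ := h' n S f hs hS (by rw [← hcard]; exact (le_max_left _ _).trans hN)
  exact ⟨⟨B, hB, hB'⟩, fun hR => hR (h1 ε _ F (table f) B ((le_max_right _ _).trans hN) hB hB')⟩

end Pool.Agent.Results.MP_0775d3_lc.SemigroupTables
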