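import Pool.Agent.TH969.MT.NR

/-!
# Matrices in the tensor product of small tame spaces of matrices are not rigid
-/

set_option autoImplicit false

namespace Pool.Agent.Results.MP_0775d3_lc.SmallTensorFactors

open Matrix Module

/-- the number of nonzero entries -/
noncomputable def sp {X F : Type} [Field F] (S : Matrix X X F) : ℕ :=
  Nat.card {p : X × X // S p.1 p.2 ≠ 0}

/-- `M` is `(r, s)`-rigid: it is not the sum of a matrix of rank at most `r` and a matrix with at
most `s` nonzero entries -/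
def Rigid {X F : Type} [Fintype X] [Field F] (r s : ℝ) (M : Matrix X X F) : Prop :=
  ¬ ∃ R S : Matrix X X F, M = R + S ∧ (R.rank : ℝ) ≤ r ∧ (sp S : ℝ) ≤ s

/-- For the `N` by `N` matrix `M` there is a matrix `B` of rank at most `N ^ (1 - γ)` which differs
from `M` in at most `N ^ ε` entries of every row. -/
def NearLowRank {X F : Type} [Fintype X] [Field F] (γ ε : ℝ) (M : Matrix X X F) : Prop :=
  ∃ B : Matrix X X F, (B.rank : ℝ) ≤ (Fintype.card X : ℝ) ^ (1 - γ) ∧
    ∀ x, (Nat.card {y // M x y ≠ B x y} : ℝ) ≤ (Fintype.card X : ℝ) ^ ε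

/-- the Kronecker (tensor) product of the square matrices `A i`, indexed by tuples -/
def kron {F : Type} [Field F] {n : ℕ} {s : Fin n → ℕ}
    (A : ∀ i, Matrix (Fin (s i)) (Fin (s i)) F) : Matrix (∀ i, Fin (s i)) (∀ i, Fin (s i)) F :=
  fun x y => ∏ i, A i (x i) (y i)

/-- the tensor product of the spaces of matrices `𝓐 i` -/
def tensor {K : Type} [Field K] {n : ℕ} {s : Fin n → ℕ}
    (𝓐 : ∀ i, Submodule K (Matrix (Fin (s i)) (Fin (s i)) K)) :
    Submodule K (Matrix (∀ i, Fin (s i)) (∀ i, Fin (s i)) K) :=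
  Submodule.span K {B | ∃ A : ∀ i, Matrix (Fin (s i)) (Fin (s i)) K,
    (∀ i, A i ∈ 𝓐 i) ∧ B = kron A}

/-- The space of matrices is equivalent to a space of lower triangular matrices. -/
def Triangular {K : Type} [Field K] {s : ℕ} (𝓐 : Submodule K (Matrix (Fin s) (Fin s) K)) : Prop :=
  ∃ P Q : Matrix (Fin s) (Fin s) K, IsUnit P.det ∧ IsUnit Q.det ∧
    ∀ A ∈ 𝓐, ∀ p q, p < q → (P * A * Q) p q = 0

/-- The space of `s` by `s` matrices has a large block of zeros: there are spaces of vectors `R`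
and `C` with `dim R + dim C > s` and `xᵀ A y = 0` for all `x ∈ R`, `y ∈ C` and all `A`. -/
def ZeroBlock {K : Type} [Field K] {s : ℕ} (𝓐 : Submodule K (Matrix (Fin s) (Fin s) K)) : Prop :=
  ∃ R C : Submodule K (Fin s → K), s < finrank K R + finrank K C ∧
    ∀ A ∈ 𝓐, ∀ x ∈ R, ∀ y ∈ C, x ⬝ᵥ (A *ᵥ y) = 0

/-- The matrices of the space commute after division by an invertible matrix `E`. -/
def Commuting {K : Type} [Field K] {s : ℕ} (𝓐 : Submodule K (Matrix (Fin s) (Fin s) K)) : Prop :=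
  ∃ E : Matrix (Fin s) (Fin s) K, IsUnit E.det ∧
    ∀ A ∈ 𝓐, ∀ B ∈ 𝓐, A * E⁻¹ * B = B * E⁻¹ * A

/-- The allowed factors: `𝓐` is equivalent to a space of lower triangular matrices, or it has a
large block of zeros, or the field is algebraically closed and `𝓐` has dimension at most `2` or
commutes after division by an invertible matrix. -/
def Tame {K : Type} [Field K] {s : ℕ} (𝓐 : Submodule K (Matrix (Fin s) (Fin s) K)) : Prop :=
  Triangular 𝓐 ∨ ZeroBlock 𝓐 ∨ (IsAlgClosed K ∧ (finrank K 𝓐 ≤ 2 ∨ Commuting 𝓐))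

/-- **Tensor products of small tame spaces of matrices are not rigid.**
For all `d, D` and `ε > 0` there is `γ > 0` such that for every `η > 0` there is `N₀` with: let
`K / F` be a field extension of degree at most `D`, let `𝓐 i` be tame spaces of matrices over `K`
of sizes between `2` and `d`, and let `M` be a matrix over `F`, of size `N ≥ N₀`, which lies over
`K` in the tensor product of the spaces `𝓐 i`. Then `M` differs in at most `N ^ ε` entries of every
row from a matrix over `F` of rank at most `N ^ (1 - γ)`; and `M` is not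
`(η N, N ^ (1 + ε))`-rigid. -/
theorem result (d D : ℕ) (ε : ℝ) (hε : 0 < ε) : ∃ γ : ℝ, 0 < γ ∧ ∀ η : ℝ, 0 < η → ∃ N₀ : ℕ,
    ∀ (F K : Type) [Field F] [Field K] [Algebra F K] [FiniteDimensional F K] (n : ℕ)
      (s : Fin n → ℕ) (𝓐 : ∀ i, Submodule K (Matrix (Fin (s i)) (Fin (s i)) K))
      (M : Matrix (∀ i, Fin (s i)) (∀ i, Fin (s i)) F),
      finrank F K ≤ D → (∀ i, 2 ≤ s i ∧ s i ≤ d) → (∀ i, Tame (𝓐 i)) → N₀ ≤ ∏ i, s i →
      M.map (algebraMap F K) ∈ tensor 𝓐 →
      NearLowRank γ ε M ∧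
        ¬ Rigid (η * ∏ i, (s i : ℝ)) ((∏ i, (s i : ℝ)) ^ (1 + ε)) M := by
  obtain ⟨γ, hγ, N₀, h⟩ := TH969.MT.final_space d D ε hε
  refine ⟨γ, hγ, fun η hη => ?_⟩
  obtain ⟨N₁, h1⟩ := TH969.MT.not_rigid_core γ η hγ hη
  refine ⟨max N₀ N₁, ?_⟩
  intro F K _ _ _ _ n s 𝓐 M hD hs hT hN hM
  have hT' : ∀ i, TH969.MT.Tame (𝓐 i) := by
    intro i
    rcases hT i with h2 | h2 | ⟨h2, h3 | ⟨E, hE, h3⟩⟩
    · exact Or.inl h2
    · exact Or.inr h2
    · exact TH969.MT.tame_of_finrank (𝓐 i) h3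
    · exact TH969.MT.tame_of_comm (𝓐 i) E hE h3
  obtain ⟨B, hB, hB'⟩ := h F K n s 𝓐 M hD hs hT' ((le_max_left _ _).trans hN) hM
  have hcard : Fintype.card (∀ i, Fin (s i)) = ∏ i, s i := by
    rw [Fintype.card_pi]
    exact Finset.prod_congr rfl fun i _ => Fintype.card_fin _
  have hcr : ∏ i, (s i : ℝ) = Fintype.card (∀ i, Fin (s i)) := by
    rw [hcard]
    push_cast
    rfl
  refine ⟨⟨B, hB, hB'⟩, fun hR => hR ?_⟩
  rw [hcr]
  exact h1 ε _ F M B (by rw [hcard]; exact (le_max_right _ _).trans hN) hB hB'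

end Pool.Agent.Results.MP_0775d3_lc.SmallTensorFactors
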