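import Pool.Agent.TH483.Rg.Tree
import Pool.Agent.TH708.Fat.Hilb

/-!
# Rigidity modulo changes of small treewidth

If all minors of the `n × n` matrix `A` are nonzero (for instance the Hilbert matrix), and
`A = L + S₁ + ... + S_k + T` where the patterns of the `S_l` have small treewidth (a constant
fraction of all entries may be changed in this way), then `T` needs as many nonzero entries as the
best known bound for the decompositions `A = L + T`, up to constants.
-/

set_option autoImplicit false

namespace Pool.Agent.Results.MP_0775d3_lc.TreewidthPlusSparse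

open Finset Pool.Agent.TH483.Rg

/-- The bipartite graph on the rows (`inl`) and the columns (`inr`), with an edge for every nonzero
entry of `S`, has a tree decomposition of width at most `w`: a tree with nodes `0, ..., N`, where
`par t < t` is the parent of `t ≠ 0`, and for every node a bag of at most `w + 1` rows and columns;
the nodes whose bags contain a given row or column form a nonempty subtree (exactly one of them is
the root or has a parent whose bag does not contain it), and for every nonzero entry some bag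
contains its row and its column. -/
def TreewidthLE {F : Type} [Field F] {n : ℕ} (S : Matrix (Fin n) (Fin n) F) (w : ℕ) : Prop :=
  ∃ (N : ℕ) (par : Fin (N + 1) → Fin (N + 1)) (bag : Fin (N + 1) → Finset (Fin n ⊕ Fin n)),
    (∀ t, 0 < t → par t < t) ∧ (∀ t, (bag t).card ≤ w + 1) ∧
    (∀ v, ∃! t, v ∈ bag t ∧ (t = 0 ∨ v ∉ bag (par t))) ∧
    (∀ i j, S i j ≠ 0 → ∃ t, Sum.inl i ∈ bag t ∧ Sum.inr j ∈ bag t)

/-- All minors of `A`, of all orders, are nonzero. -/
def MinorsNonzero {F : Type} [Field F] {n : ℕ} (A : Matrix (Fin n) (Fin n) F) : Prop :=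
  ∀ (s : ℕ) (p q : Fin s → Fin n), Function.Injective p → Function.Injective q →
    (A.submatrix p q).det ≠ 0

/-- the number of nonzero entries -/
noncomputable def sp {F : Type} [Field F] {n : ℕ} (T : Matrix (Fin n) (Fin n) F) : ℕ :=
  Nat.card {p : Fin n × Fin n // T p.1 p.2 ≠ 0}

/-- the Hilbert matrix, with entries `1 / (i + j + 1)` -/
def hilbert (F : Type) [Field F] (n : ℕ) : Matrix (Fin n) (Fin n) F :=
  Matrix.of fun i j => (((i + j + 1 : ℕ) : F))⁻¹

/-- `S` is zero outside the circulant diagonals `j - i ≡ t (mod n)`, `t ∈ D` -/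
def OnDiagonals {F : Type} [Field F] {n : ℕ} (S : Matrix (Fin n) (Fin n) F)
    (D : Finset (ZMod n)) : Prop :=
  ∀ i j : Fin n, S i j ≠ 0 → ∃ t ∈ D, ((j : ℕ) : ZMod n) = ((i : ℕ) : ZMod n) + t

lemma empty_rect {F : Type} [Field F] {n : ℕ} (w m k : ℕ)
    (S : Fin k → Matrix (Fin n) (Fin n) F) (hS : ∀ l, TreewidthLE (S l) w)
    (hm : 3 ^ k * (2 * m + 3 * (w + 1)) ≤ 2 * n + 3 * (w + 1)) :
    ∃ R C : Finset (Fin n), R.card = m ∧ C.card = m ∧
      ∀ i ∈ R, ∀ j ∈ C, (∑ l, S l) i j = 0 := by
  classical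
  obtain ⟨R, -, C, -, hR, hC, h⟩ := split_many w m k
    (fun l (u v : Fin n ⊕ Fin n) => ∃ i j : Fin n, u = .inl i ∧ v = .inr j ∧ S l i j ≠ 0)
    (fun l => by
      obtain ⟨N, par, bag, h1, h2, h3, h4⟩ := hS l
      refine ⟨N, par, bag, h1, h2, h3, ?_⟩
      rintro u v ⟨i, j, rfl, rfl, hij⟩
      exact h4 i j hij)
    univ univ n (by simp) (by simp) hm
  refine ⟨R, C, hR, hC, fun i hi j hj => ?_⟩
  rw [Matrix.sum_apply]
  apply sum_eq_zero
  intro l _
  by_contra hne
  exact h l i hi j hj ⟨i, j, rfl, rfl, hne⟩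

lemma rank_ge {F : Type} [Field F] {n : ℕ} {A L : Matrix (Fin n) (Fin n) F}
    (hA : MinorsNonzero A) (R C : Finset (Fin n)) (s : ℕ) (hR : R.card = s) (hC : C.card = s)
    (h : ∀ i ∈ R, ∀ j ∈ C, A i j = L i j) : s ≤ L.rank := by
  classical
  let p : Fin s → Fin n := fun a => (R.equivFin.symm (Fin.cast hR.symm a)).1
  let q : Fin s → Fin n := fun a => (C.equivFin.symm (Fin.cast hC.symm a)).1
  have hp : Function.Injective p := fun a b hab => by
    have := Subtype.ext hab
    simpa using this
  have hq : Function.Injective q := fun a b hab => by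
    have := Subtype.ext hab
    simpa using this
  have h1 := hA s p q hp hq
  have h2 : A.submatrix p q = L.submatrix p q := by
    ext a b
    exact h _ (R.equivFin.symm _).2 _ (C.equivFin.symm _).2
  rw [h2] at h1
  have h3 : (L.submatrix p q).rank = s := by
    rw [Matrix.rank_of_isUnit _ ((Matrix.isUnit_iff_isUnit_det _).mpr (isUnit_iff_ne_zero.mpr h1)),
      Fintype.card_fin]
  rw [← h3]
  exact Matrix.rank_submatrix_le L p q

/-- **Theorem.** Let all minors of the `n × n` matrix `A` be nonzero, let the patterns of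
`S₁, ..., S_k` have treewidth at most `w`, and let `3 ^ k (2 m + 3 (w + 1)) ≤ 2 n + 3 (w + 1)`.
(1) `rank (A - S₁ - ... - S_k) ≥ m`.
(2) If `A = L + S₁ + ... + S_k + T`, `rank L ≤ r` and `2 (r + 1) ≤ m`, then
`m (m - r - 1) Λ ≤ 4 (r + 1 + Λ) sp T`, where `Λ = log (m / (2 (r + 1)))`.
(3) All minors of the Hilbert matrix over a field of characteristic zero are nonzero.
(4) If `S` is zero outside `|D|` circulant diagonals and `K ^ (|D| + 2) < n`, the pattern of `S`
has treewidth at most `w` for every `w ≥ 12 ⌊n / K⌋ - 1`. -/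
theorem result :
    (∀ (F : Type) [Field F] (n w m k : ℕ) (A : Matrix (Fin n) (Fin n) F)
      (S : Fin k → Matrix (Fin n) (Fin n) F), MinorsNonzero A → (∀ l, TreewidthLE (S l) w) →
      3 ^ k * (2 * m + 3 * (w + 1)) ≤ 2 * n + 3 * (w + 1) →
      m ≤ (A - ∑ l, S l).rank ∧
      ∀ (L T : Matrix (Fin n) (Fin n) F) (r : ℕ), A = L + ∑ l, S l + T → L.rank ≤ r →
        2 * (r + 1) ≤ m →
        (m : ℝ) * (m - r - 1) * Real.log (m / (2 * (r + 1))) ≤
          4 * (r + 1 + Real.log (m / (2 * (r + 1)))) * sp T) ∧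
    (∀ (F : Type) [Field F] [CharZero F] (n : ℕ), MinorsNonzero (hilbert F n)) ∧
    (∀ (F : Type) [Field F] (n K w : ℕ) (D : Finset (ZMod n)) (S : Matrix (Fin n) (Fin n) F),
      1 ≤ K → K ^ (D.card + 2) < n → 12 * (n / K) ≤ w + 1 → OnDiagonals S D →
      TreewidthLE S w) := by
  classical
  refine ⟨?_, ?_, ?_⟩
  · intro F _ n w m k A S hA hS hm
    obtain ⟨R, C, hR, hC, hRC⟩ := empty_rect w m k S hS hm
    refine ⟨rank_ge hA R C m hR hC fun i hi j hj => by
      rw [Matrix.sub_apply, hRC i hi j hj, sub_zero], ?_⟩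
    intro L T r hdec hL hr
    have hhit := hit_count R C (fun i j => T i j ≠ 0) m (r + 1) hR hC (by omega) hr (by
      intro R' hR' C' hC' hRc hCc
      by_contra hcon
      push Not at hcon
      have := rank_ge hA R' C' (r + 1) hRc hCc (L := L) (fun i hi j hj => by
        rw [hdec, Matrix.add_apply, Matrix.add_apply, hRC i (hR' hi) j (hC' hj),
          hcon i hi j hj, add_zero, add_zero])
      omega)
    have hcard : ((R ×ˢ C).filter (fun p => T p.1 p.2 ≠ 0)).card ≤ sp T := by
      unfold sp
      rw [Nat.card_eq_fintype_card, Fintype.card_subtype]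
      apply card_le_card
      intro p hp
      rw [mem_filter] at hp ⊢
      exact ⟨mem_univ _, hp.2⟩
    have hcardR : (((R ×ˢ C).filter (fun p => T p.1 p.2 ≠ 0)).card : ℝ) ≤ sp T := by
      exact_mod_cast hcard
    push_cast at hhit
    have hlog : 0 ≤ Real.log ((m : ℝ) / (2 * (r + 1))) := by
      apply Real.log_nonneg
      rw [le_div_iff₀ (by positivity)]
      have : ((2 * (r + 1) : ℕ) : ℝ) ≤ m := by exact_mod_cast hr
      push_cast at this
      linarith
    calc (m : ℝ) * (m - r - 1) * Real.log (m / (2 * (r + 1)))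
        = (m : ℝ) * (m - (r + 1)) * Real.log (m / (2 * (r + 1))) := by ring
      _ ≤ _ := hhit
      _ ≤ _ := by
        apply mul_le_mul_of_nonneg_left hcardR
        positivity
  · intro F _ _ n s p q hp hq
    exact Pool.Agent.TH708.Fat.hilbert_minor F n s p q hp hq
  · intro F _ n K w D S hK hD hw hS
    have : NeZero n := ⟨by omega⟩
    obtain ⟨N, par, bag, h1, h2, h3, h4⟩ := circ_tree n K hK D hD w hw
    exact ⟨N, par, bag, h1, h2, h3, fun i j hij => h4 _ _ ⟨i, j, rfl, rfl, hS i j hij⟩⟩

end Pool.Agent.Results.MP_0775d3_lc.TreewidthPlusSparse
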